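import Mathlib

/-!
# The modular quiddity equation has finitely many irreducible solutions

Two prefixes of a long solution have matrices with the same second row (pigeonhole principle in
`(ZMod N) ^ 2`). The block between them then has a matrix with upper left entry `1`, so it can be
completed at both ends to a solution, and the given solution is a sum.
-/

set_option autoImplicit false

namespace Pool.Agent.Results.MP_762e7e_co.FinitelyMany

variable {N : ℕ}

/-- the elementary matrix of one letter -/
def A (x : ZMod N) : Matrix (Fin 2) (Fin 2) (ZMod N) := !![x, -1; 1, 0]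

/-- `M [a₁, ..., aₙ] = A aₙ * ... * A a₁` -/
def M : List (ZMod N) → Matrix (Fin 2) (Fin 2) (ZMod N)
  | [] => 1
  | x :: l => M l * A x

/-- a solution of the modular quiddity equation -/
def Sol (c : List (ZMod N)) : Prop := M c = 1 ∨ M c = -1

/-- `d` is the sum of `a` and `b`: if `a = (a₁, ..., aₙ)` and `b = (b₁, ..., bₘ)`, then
`d = (a₁ + bₘ, a₂, ..., aₙ₋₁, aₙ + b₁, b₂, ..., bₘ₋₁)` -/
def IsSum (a b d : List (ZMod N)) : Prop :=
  ∃ (x y z t : ZMod N) (u w : List (ZMod N)), a = x :: (u ++ [y]) ∧ b = z :: (w ++ [t]) ∧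
    d = (x + t) :: (u ++ (y + z) :: w)

/-- `d` is a cyclic rotation of `c` or of the reversal of `c` -/
def Equivalent (c d : List (ZMod N)) : Prop := c ~r d ∨ c.reverse ~r d

/-- `c` is equivalent to a sum of two solutions of size at least three -/
def Reducible (c : List (ZMod N)) : Prop :=
  ∃ a b d : List (ZMod N), 3 ≤ a.length ∧ 3 ≤ b.length ∧ Sol a ∧ Sol b ∧ IsSum a b d ∧
    Equivalent c d

/-- an irreducible solution, of size at least three -/
def IrredSol (c : List (ZMod N)) : Prop := 3 ≤ c.length ∧ Sol c ∧ ¬ Reducible c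

theorem M_append (l₁ l₂ : List (ZMod N)) : M (l₁ ++ l₂) = M l₂ * M l₁ := by
  induction l₁ with
  | nil => simp [M]
  | cons x l ih => rw [List.cons_append, M, M, ih, Matrix.mul_assoc]

theorem M_single (x : ZMod N) : M [x] = A x := by simp [M]

theorem det_A (x : ZMod N) : (A x).det = 1 := by simp [A, Matrix.det_fin_two]

theorem det_M (l : List (ZMod N)) : (M l).det = 1 := by
  induction l with
  | nil => simp [M]
  | cons x l ih => rw [M, Matrix.det_mul, ih, det_A, mul_one]

/-- the inverse of `A t` -/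
def B (t : ZMod N) : Matrix (Fin 2) (Fin 2) (ZMod N) := !![0, 1; -1, t]

theorem A_mul_B (t : ZMod N) : A t * B t = 1 := by
  ext i j; fin_cases i <;> fin_cases j <;> simp [A, B, Matrix.mul_apply, Fin.sum_univ_two]

theorem B_mul_A (t : ZMod N) : B t * A t = 1 := by
  ext i j; fin_cases i <;> fin_cases j <;> simp [A, B, Matrix.mul_apply, Fin.sum_univ_two]

theorem A_zero_sq : A (0 : ZMod N) * A 0 = -1 := by
  ext i j; fin_cases i <;> fin_cases j <;> simp [A, Matrix.mul_apply, Fin.sum_univ_two]

theorem A_add (x y : ZMod N) : A (x + y) = -(A x * A 0 * A y) := by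
  ext i j
  fin_cases i <;> fin_cases j <;> simp [A]

/-- completion of a block with upper left entry `1` -/
theorem complete (Y : Matrix (Fin 2) (Fin 2) (ZMod N)) (hdet : Y.det = 1) (h : Y 0 0 = 1) :
    A (Y 1 0) * Y * A (-(Y 0 1)) = -1 := by
  rw [Matrix.det_fin_two, h] at hdet
  have h1 : Y 1 1 = 1 + Y 0 1 * Y 1 0 := by linear_combination hdet
  have hY : Y = !![1, Y 0 1; Y 1 0, 1 + Y 0 1 * Y 1 0] := by
    conv_lhs => rw [Matrix.eta_fin_two Y, h, h1]
  generalize Y 0 1 = q at hY ⊢
  generalize Y 1 0 = r at hY ⊢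
  subst hY
  have h2 : (-1 : Matrix (Fin 2) (Fin 2) (ZMod N)) = !![-1, 0; 0, -1] := by
    ext i j; fin_cases i <;> fin_cases j <;> simp
  rw [A, A, Matrix.mul_fin_two, Matrix.mul_fin_two, h2]
  ext i j
  fin_cases i <;> fin_cases j <;> simp; ring

theorem reduce_aux (Y Ma : Matrix (Fin 2) (Fin 2) (ZMod N)) (z t : ZMod N)
    (hb : A t * Y * A z = -1) (ε : Matrix (Fin 2) (Fin 2) (ZMod N)) (hε : ε = 1 ∨ ε = -1)
    (h : Y * (A z * A 0 * Ma * (A 0 * A t)) = ε) : Ma = ε := by
  have hcomm : ∀ X : Matrix (Fin 2) (Fin 2) (ZMod N), X * ε = ε * X := by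
    intro X
    rcases hε with rfl | rfl <;> simp
  have h1 : Y * A z = -B t := by
    calc Y * A z = B t * A t * (Y * A z) := by rw [B_mul_A, Matrix.one_mul]
      _ = B t * (A t * Y * A z) := by simp only [Matrix.mul_assoc]
      _ = -B t := by rw [hb, Matrix.mul_neg, Matrix.mul_one]
  have h2 : -(B t * (A 0 * Ma * A 0) * A t) = ε := by
    rw [← h]
    calc -(B t * (A 0 * Ma * A 0) * A t) = (-B t) * (A 0 * Ma * A 0) * A t := by
          simp only [Matrix.neg_mul]
      _ = Y * (A z * A 0 * Ma * (A 0 * A t)) := by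
          rw [← h1]; simp only [Matrix.mul_assoc]
  have h3 : A 0 * Ma * A 0 = -ε := by
    calc A 0 * Ma * A 0 = (A t * B t) * (A 0 * Ma * A 0) * (A t * B t) := by
          rw [A_mul_B, Matrix.one_mul, Matrix.mul_one]
      _ = A t * (B t * (A 0 * Ma * A 0) * A t) * B t := by simp only [Matrix.mul_assoc]
      _ = A t * (-ε) * B t := by rw [← h2, neg_neg]
      _ = -(ε * (A t * B t)) := by
          rw [Matrix.mul_neg, hcomm, Matrix.neg_mul, Matrix.mul_assoc]
      _ = -ε := by rw [A_mul_B, Matrix.mul_one]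
  calc Ma = (A 0 * A 0) * Ma * (A 0 * A 0) := by
        rw [A_zero_sq]; simp
    _ = A 0 * (A 0 * Ma * A 0) * A 0 := by simp only [Matrix.mul_assoc]
    _ = -(ε * (A 0 * A 0)) := by
        rw [h3, Matrix.mul_neg, hcomm, Matrix.neg_mul, Matrix.mul_assoc]
    _ = ε := by rw [A_zero_sq, Matrix.mul_neg, Matrix.mul_one, neg_neg]

/-- a solution with a block whose matrix has upper left entry `1` is reducible -/
theorem reducible_of_block (p y s : List (ZMod N)) (hc : Sol (p ++ y ++ s)) (hy : y ≠ [])
    (hlen : 3 ≤ (s ++ p).length) (h : (M y) 0 0 = 1) : Reducible (p ++ y ++ s) := by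
  obtain ⟨x0, X', hX⟩ : ∃ x0 X', s ++ p = x0 :: X' := by
    cases hsp : s ++ p with
    | nil => rw [hsp] at hlen; simp at hlen
    | cons a l => exact ⟨a, l, rfl⟩
  obtain ⟨u, x1, hu⟩ : ∃ u x1, X' = u ++ [x1] := by
    have hne : X' ≠ [] := by
      rintro rfl
      rw [hX] at hlen; simp at hlen
    exact ⟨X'.dropLast, X'.getLast hne, (List.dropLast_append_getLast hne).symm⟩
  subst hu
  set z : ZMod N := -((M y) 0 1) with hz
  set t : ZMod N := (M y) 1 0 with ht
  have hb : A t * M y * A z = -1 := complete (M y) (det_M y) h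
  refine ⟨(x0 - t) :: (u ++ [x1 - z]), z :: (y ++ [t]), x0 :: (u ++ x1 :: y), ?_, ?_, ?_, ?_,
    ?_, ?_⟩
  · rw [hX] at hlen
    simpa using hlen
  · have : 0 < y.length := List.length_pos_iff.2 hy
    simp only [List.length_cons, List.length_append, List.length_nil]
    omega
  · have hM : M y * (A z * A 0 * M ((x0 - t) :: (u ++ [x1 - z])) * (A 0 * A t)) =
        M y * M (s ++ p) := by
      congr 1
      rw [hX, M, M, M_append, M_append, M_single, M_single]
      have e1 : A x1 = -(A z * A 0 * A (x1 - z)) := by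
        rw [← A_add]; congr 1; ring
      have e2 : A x0 = -(A (x0 - t) * A 0 * A t) := by
        rw [← A_add]; congr 1; ring
      rw [e1, e2]
      simp only [Matrix.neg_mul, Matrix.mul_neg, neg_neg, Matrix.mul_assoc]
    have hcyc : M y * M (s ++ p) = 1 ∨ M y * M (s ++ p) = -1 := by
      have h1 : M s * (M y * M p) = M (p ++ y ++ s) := by rw [M_append, M_append]
      have h2 : M y * M (s ++ p) = (M y * M p) * M s := by
        rw [M_append, Matrix.mul_assoc]
      rw [h2]
      rcases hc with hc | hc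
      · left
        rw [← h1] at hc
        exact mul_eq_one_comm.1 hc
      · right
        rw [← h1] at hc
        have h3 : M s * -(M y * M p) = 1 := by rw [Matrix.mul_neg, hc, neg_neg]
        have h4 := mul_eq_one_comm.1 h3
        rw [Matrix.neg_mul] at h4
        rw [← neg_neg (M y * M p * M s), h4]
    have key := reduce_aux (M y) (M ((x0 - t) :: (u ++ [x1 - z]))) z t hb
      (M y * M (s ++ p)) hcyc hM
    unfold Sol
    rw [key]
    exact hcyc
  · right
    rw [M, M_append, M_single]
    exact hb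
  · exact ⟨x0 - t, x1 - z, z, t, u, y, rfl, rfl, by rw [sub_add_cancel, sub_add_cancel]⟩
  · left
    have h1 : x0 :: (u ++ x1 :: y) = (s ++ p) ++ y := by rw [hX]; simp
    rw [h1, List.append_assoc s p y]
    exact (List.isRotated_append (l := p ++ y) (l' := s))

theorem row_eq (P Y : Matrix (Fin 2) (Fin 2) (ZMod N)) (hP : P.det = 1)
    (hYP : (Y * P).det = 1) (h0 : (Y * P) 1 0 = P 1 0) (h1 : (Y * P) 1 1 = P 1 1) :
    Y 0 0 = 1 := by
  rw [Matrix.det_fin_two] at hP hYP
  rw [h0, h1] at hYP
  simp only [Matrix.mul_apply, Fin.sum_univ_two] at hYP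
  have : Y 0 0 * (P 0 0 * P 1 1 - P 0 1 * P 1 0) = 1 := by linear_combination hYP
  rw [hP, mul_one] at this
  exact this

/-- long solutions are reducible -/
theorem long_reducible [NeZero N] (c : List (ZMod N)) (hc : Sol c)
    (hlen : N * N + 3 ≤ c.length) : Reducible c := by
  have hcard : Fintype.card (ZMod N × ZMod N) < Fintype.card (Fin (N * N + 1)) := by
    rw [Fintype.card_prod, ZMod.card, Fintype.card_fin]
    omega
  obtain ⟨i, j, hij, hf⟩ := Fintype.exists_ne_map_eq_of_card_lt
    (fun i : Fin (N * N + 1) => ((M (c.take i.1)) 1 0, (M (c.take i.1)) 1 1)) hcard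
  wlog hlt : i < j generalizing i j
  · exact this j i hij.symm hf.symm (lt_of_le_of_ne (not_lt.1 hlt) hij.symm)
  have hij' : i.1 < j.1 := hlt
  have hj := j.2
  have hsplit : c = c.take i.1 ++ (c.drop i.1).take (j.1 - i.1) ++ c.drop j.1 := by
    have h1 : c.take j.1 = c.take i.1 ++ (c.drop i.1).take (j.1 - i.1) := by
      have := List.take_add (l := c) (i := i.1) (j := j.1 - i.1)
      rwa [Nat.add_sub_cancel' hij'.le] at this
    rw [← h1, List.take_append_drop]
  have h1 : c.take j.1 = c.take i.1 ++ (c.drop i.1).take (j.1 - i.1) := by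
    have := List.take_add (l := c) (i := i.1) (j := j.1 - i.1)
    rwa [Nat.add_sub_cancel' hij'.le] at this
  set p := c.take i.1 with hp
  set y := (c.drop i.1).take (j.1 - i.1) with hy
  set s := c.drop j.1 with hs
  have hylen : y.length = j.1 - i.1 := by
    rw [hy, List.length_take, List.length_drop]; omega
  have hplen : p.length = i.1 := by
    rw [hp, List.length_take]; omega
  have hslen : s.length = c.length - j.1 := by
    rw [hs, List.length_drop]
  rw [hsplit] at hc ⊢
  refine reducible_of_block p y s hc ?_ ?_ ?_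
  · rintro h
    rw [h] at hylen
    simp at hylen
    omega
  · rw [List.length_append, hplen, hslen]
    omega
  · simp only [Prod.mk.injEq] at hf
    rw [h1, M_append] at hf
    refine row_eq (M p) (M y) (det_M p) ?_ hf.1.symm hf.2.symm
    rw [← M_append]; exact det_M _

/-- For every integer `N ≥ 2`, the equation `(E_N)` has only finitely many irreducible
solutions. -/
theorem result : ∀ N : ℕ, 2 ≤ N → {c : List (ZMod N) | IrredSol c}.Finite := by
  intro N hN
  have : NeZero N := ⟨by omega⟩
  refine (List.finite_length_le (ZMod N) (N * N + 2)).subset ?_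
  rintro c ⟨_, hc, hred⟩
  by_contra hlen
  refine hred (long_reducible c hc ?_)
  have : ¬ c.length ≤ N * N + 2 := hlen
  omega

end Pool.Agent.Results.MP_762e7e_co.FinitelyMany
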